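import Pool.Agent.Lib.MP_587b89_lc.Two
import Pool.Agent.Lib.MP_587b89_lc.SqD

set_option autoImplicit false

namespace Pool.Agent.Results.MP_587b89_lc.LargeLengthSq

/-- For `m` large, the primitive narrow-sense BCH code of designed distance `δ` over a field with
`q` elements has minimum distance exactly `δ` if and only if `q` does not divide `δ`; here for all
`q`, `δ` such that `q` is even, or `δ` is prime to the characteristic `p` or divisible by `q`, or
`q` is a square and `p ^ 2` does not divide `δ`. -/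
theorem result (F : Type) [Field F] [Fintype F] [DecidableEq F] (δ : ℕ) (hδ : 2 ≤ δ)
    (h : ringChar F = 2 ∨ (ringChar F ∣ δ → Fintype.card F ∣ δ) ∨
      (IsSquare (Fintype.card F) ∧ ¬ ringChar F ^ 2 ∣ δ)) :
    ∃ m₀ : ℕ, ∀ m ≥ m₀, ∀ (E : Type) [Field E] [Algebra F E], Module.finrank F E = m →
      ∀ α : E, IsPrimitiveRoot α (Fintype.card F ^ m - 1) →
        (IsLeast {w | ∃ a : Fin (Fintype.card F ^ m - 1) → F, a ≠ 0 ∧
          (∀ j, 1 ≤ j → j < δ → ∑ i, algebraMap F E (a i) * (α ^ j) ^ (i : ℕ) = 0) ∧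
          hammingNorm a = w} δ ↔ ¬ Fintype.card F ∣ δ) :=
  Pool.Agent.Lib.MP_587b89_lc.main hδ fun hd K _ _ _ => by
    by_cases h2 : ringChar F = 2
    · exact Pool.Agent.Lib.MP_587b89_lc.word_two F h2 hd K
    · exact (h.resolve_left h2).elim
        (fun h => Pool.Agent.Lib.MP_587b89_lc.word_coprime F (fun hp => hd (h hp)) K)
        fun h => Pool.Agent.Lib.MP_587b89_lc.word_sq F h2 h.1 h.2 K

end Pool.Agent.Results.MP_587b89_lc.LargeLengthSq
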