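import Pool.Agent.Lib.MP_587b89_lc.Lin.Main

set_option autoImplicit false

namespace Pool.Agent.Results.MP_587b89_lc.LinearRange

/-- For binary primitive narrow-sense BCH codes of length `2 ^ m - 1` whose designed distance
`δ ≥ 2` satisfies `4 δ + 4 ⌊log₂ δ⌋ + 8 ≤ m`, the minimum distance equals `δ` if and only if `δ`
is odd. -/
theorem result (m δ : ℕ) (hδ : 2 ≤ δ) (hm : 4 * δ + 4 * Nat.log 2 δ + 8 ≤ m)
    (E : Type) [Field E] [Algebra (ZMod 2) E] (hE : Module.finrank (ZMod 2) E = m)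
    (α : E) (hα : IsPrimitiveRoot α (2 ^ m - 1)) :
    IsLeast {w | ∃ a : Fin (2 ^ m - 1) → ZMod 2, a ≠ 0 ∧
      (∀ j, 1 ≤ j → j < δ → ∑ i, algebraMap (ZMod 2) E (a i) * (α ^ j) ^ (i : ℕ) = 0) ∧
      hammingNorm a = w} δ ↔ Odd δ :=
  Pool.Agent.Lib.MP_587b89_lc.Lin.linear_range m δ hδ hm E hE α hα

end Pool.Agent.Results.MP_587b89_lc.LinearRange
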