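import Pool.Agent.Lib.MP_587b89_lc.WinF

set_option autoImplicit false

namespace Pool.Agent.Results.MP_587b89_lc.QuarterWindow

/-- For binary primitive narrow-sense BCH codes of length `2 ^ m - 1` whose designed distance `δ`
satisfies `2 ^ (m - 2) - 2 ^ (m / 3 - 4) ≤ δ < 2 ^ (m - 2)` (real exponent), the minimum distance
equals `δ` if and only if `δ = 2 ^ (m - 2) - 1`. -/
theorem result (m δ : ℕ) (hδ : δ < 2 ^ (m - 2)) (hw : (16 * (2 ^ (m - 2) - δ)) ^ 3 ≤ 2 ^ m)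
    (E : Type) [Field E] [Algebra (ZMod 2) E] (hE : Module.finrank (ZMod 2) E = m)
    (α : E) (hα : IsPrimitiveRoot α (2 ^ m - 1)) :
    IsLeast {w | ∃ a : Fin (2 ^ m - 1) → ZMod 2, a ≠ 0 ∧
      (∀ j, 1 ≤ j → j < δ → ∑ i, algebraMap (ZMod 2) E (a i) * (α ^ j) ^ (i : ℕ) = 0) ∧
      hammingNorm a = w} δ ↔ δ = 2 ^ (m - 2) - 1 :=
  Pool.Agent.Lib.MP_587b89_lc.Win.window_iff m δ hδ hw E hE α hα

end Pool.Agent.Results.MP_587b89_lc.QuarterWindow
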